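import Pool.Agent.Run7.h634.RV.Ker

/-!
# Injectivity of the Abel-Jacobi maps: rational varieties in one codimension suffice

Let `k` be a number field. Denote by `AJ(X, m)` the statement that the Abel-Jacobi map is injective on
the homologically trivial cycles of codimension `m` on `X` (rational coefficients); `i = dim X - m` is the
dimension of the cycles.

**Theorem.**

1. Let `T` be a set of pairs `(m, i)` which contains for every `N` a pair with `m ≥ N` and `i ≥ N` (for
   instance all `(n / 2 + 1, n / 2 - 1)` with `n` in an infinite set of even numbers, or all `(m, f(m))`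
   with `f` unbounded and `m` in a suitable infinite set). The conjecture is true (for all `X` and `m`) if
   and only if `AJ(V, m)` is true for all rational varieties `V` with `(m, dim V - m)` in `T`.
2. Let `m < m'` and `M` be given. If `AJ(V, m')` is true for the rational varieties of dimension at least
   `M`, then `AJ(X, m)` is true for all `X`.
3. Let `i < i'` and `M` be given. If `AJ` is true for the `i'`-dimensional cycles on the rational varieties of
   dimension at least `M`, then it is true for the `i`-dimensional cycles on all `X`.
4. If `AJ(X, i + 2)` is true for all `X` of dimension `2 i + 2`, then `AJ` is true for the `i`-dimensional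
   cycles on all `X` of dimension at least `2 i + 2`.
5. Let `i < i'`. If `AJ(X, i' + 2)` is true for all `X` of dimension `2 i' + 2`, then `AJ` is true for the
   `i`-dimensional cycles on all `X`.

Here the rational varieties can be restricted to the blow-ups of projective spaces along smooth
subvarieties. So the conjecture can be tested in one codimension in each of infinitely many
dimensions, in any position (near the middle, or with `m / dim V` or `1 - m / dim V` tending to zero), and
only for rational varieties; by 5 the case `dim X = 2 m - 2`, for any infinite set of `m`, implies the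
conjecture.

## Proof

(1), (2), (3) Let `V` be the blow-up of a projective space along `X`, of codimension `c`. For `1 ≤ j < c` the
motive `h(X)(-j)` is a direct summand of `h(V)`. So a homologically trivial cycle `z` of codimension `m` and
dimension `i` on `X` with Abel-Jacobi class zero gives such a cycle of codimension `m + j` and dimension
`i + (c - j)` on `V`, which is zero only if `z` is zero. The numbers `j ≥ 1` and `c - j ≥ 1` are arbitrary, as
long as `X` can be embedded in a projective space of dimension `dim X + c`. (4) Let the dimension `i` of `z`
satisfy `dim X ≥ 2 i + 3`. By Kleiman's theorem `z` is represented by disjoint smooth subvarieties and is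
contained in a smooth ample divisor `Y`. By the weak Lefschetz theorem it is homologically trivial on
`Y` and its Abel-Jacobi class is zero. (5) follows from (3) and (4).

The theories `C` and `H` in the statement have the formal properties of the Chow groups with rational
coefficients and of a Weil cohomology theory (`IsChowProj`, `IsWeilProj`); the functoriality of the
Abel-Jacobi maps (`AJMaps`), the motive of a blow-up (`HasBlowUps`, `IsBlowUp`) and in 4 and 5 the divisors
through cycles of small dimension (`AJMaps.HasSections`) are the other known results which are used.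
-/

set_option autoImplicit false

open CategoryTheory AlgebraicGeometry

universe u v w t

namespace Pool.Agent.Results.MP_a1cc03_ag.RationalVarietiesSuffice

open Pool.Agent.H914 Pool.Agent.H914.VarClass Pool.Agent.W492.BB Pool.Agent.TH133
  Pool.Agent.Run7.H634.RV

/-- **Rational varieties in one codimension suffice for the injectivity of the Abel-Jacobi maps.** `𝓡`
is a class of varieties which contains, for every `X`, blow-ups of all projective spaces of large
dimension along `X` (for instance the smooth projective rational varieties), and `𝒥.Injective X m`
says that homologically trivial cycles of codimension `m` on `X` with Abel-Jacobi class zero are zero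
(rational coefficients). The five parts are those of the theorem above. -/
theorem result {k : Type u} [Field k] {𝒱 : VarClass k} {C : TheoryData.{u, v, 0} 𝒱 ℚ}
    [IsChowProj C] {K : Type w} [Field K] (H : WeilTheoryData.{u, v, w} C K) [IsWeilProj H]
    (𝒥 : AJMaps.{u, v, w, t} H) {𝓡 : 𝒱.Obj → Prop} (h𝓡 : HasBlowUps C 𝓡) :
    (∀ T : ℕ → ℕ → Prop, CofinalPairs T → ((∀ (X : 𝒱.Obj) (m : ℕ), 𝒥.Injective X m) ↔
      ∀ m i : ℕ, T m i → ∀ V : 𝒱.Obj, 𝓡 V → V.dim = m + i → 𝒥.Injective V m)) ∧
    (∀ m m' M : ℕ, m < m' → (∀ V : 𝒱.Obj, 𝓡 V → M ≤ V.dim → 𝒥.Injective V m') →
      ∀ X : 𝒱.Obj, 𝒥.Injective X m) ∧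
    (∀ i i' M : ℕ, i < i' →
      (∀ (V : 𝒱.Obj) (m : ℕ), 𝓡 V → M ≤ V.dim → m + i' = V.dim → 𝒥.Injective V m) →
      ∀ (X : 𝒱.Obj) (m : ℕ), m + i = X.dim → 𝒥.Injective X m) ∧
    (𝒥.HasSections → ∀ i : ℕ, (∀ X : 𝒱.Obj, X.dim = 2 * i + 2 → 𝒥.Injective X (i + 2)) →
      ∀ (X : 𝒱.Obj) (m : ℕ), m + i = X.dim → X.dim + 2 ≤ 2 * m → 𝒥.Injective X m) ∧
    (𝒥.HasSections → ∀ i i' : ℕ, i < i' →
      (∀ X : 𝒱.Obj, X.dim = 2 * i' + 2 → 𝒥.Injective X (i' + 2)) →
      ∀ (X : 𝒱.Obj) (m : ℕ), m + i = X.dim → 𝒥.Injective X m) :=
  aj_main 𝒥 h𝓡

end Pool.Agent.Results.MP_a1cc03_ag.RationalVarietiesSuffice
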